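import Pool.Agent.helper53.ORT.Spec

set_option autoImplicit false

namespace Pool.Agent.ORT

open Module Pool.Agent.GS

theorem SMT (sgo : SGO_stmt) : SMT_stmt := by
  intro F V _ _ _ _ B hch hB h3 y ψ ν hy hdup κ X hκ
  have h2 : (2 : F) ≠ 0 := Ring.two_ne_zero hch
  obtain ⟨lam, μ, e, f, hlam, hμ, hyef, hef⟩ := hdup
  have hν := hy.ne
  -- the values of the form
  have ee : ∀ i j, B (e i) (e j) = 0 := fun i j => (hef i j).1
  have ff : ∀ i j, B (f i) (f j) = 0 := fun i j => (hef i j).2.1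
  have ef00 : B (e 0) (f 0) = μ := by rw [(hef 0 0).2.2, if_pos rfl]
  have ef11 : B (e 1) (f 1) = μ := by rw [(hef 1 1).2.2, if_pos rfl]
  have ef01 : B (e 0) (f 1) = 0 := by rw [(hef 0 1).2.2, if_neg (by decide)]
  have ef10 : B (e 1) (f 0) = 0 := by rw [(hef 1 0).2.2, if_neg (by decide)]
  have ye : ∀ i, y (e i) = lam⁻¹ • e i := fun i => by
    have := (hyef i).1
    rw [← this, smul_smul, inv_mul_cancel₀ hlam, one_smul, this]
  have yf : ∀ i, y (f i) = lam⁻¹ • f i := fun i => by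
    have := (hyef i).2
    rw [← this, smul_smul, inv_mul_cancel₀ hlam, one_smul, this]
  have hmu : lam⁻¹ * (lam⁻¹ * μ) = ν * ψ μ := by
    have h1 := hy.form (e 0) (f 0)
    rw [ye, yf, ef00] at h1
    simp only [map_smul, LinearMap.smul_apply, smul_eq_mul, ef00] at h1
    exact h1
  obtain ⟨v, hv⟩ : ∃ v, v = e 0 + κ • e 1 := ⟨_, rfl⟩
  obtain ⟨v₁, hv₁⟩ : ∃ v₁, v₁ = e 0 + ψ κ • e 1 := ⟨_, rfl⟩
  obtain ⟨d, hd⟩ : ∃ d, d = (X / μ) • (f 1 - κ • f 0) := ⟨_, rfl⟩
  obtain ⟨d₁, hd₁⟩ : ∃ d₁, d₁ = (ψ X / ψ μ) • (f 1 - ψ κ • f 0) := ⟨_, rfl⟩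
  have yv : y v = lam⁻¹ • v₁ := by
    rw [hv, hy.add, hy.smul, ye, ye, hv₁, smul_add, smul_comm (ψ κ)]
  have hsub : ∀ a b : V, y (a - b) = y a - y b := fun a b => by
    rw [eq_sub_iff_add_eq, ← hy.add, sub_add_cancel]
  have yd : y d = lam⁻¹ • d₁ := by
    rw [hd, hy.smul, hsub, hy.smul, yf, yf, hd₁, map_div₀, smul_comm (ψ κ), ← smul_sub,
      smul_comm lam⁻¹]
  have Bvv : B v v = 0 := by
    rw [hv]
    simp only [map_add, map_smul, LinearMap.add_apply, LinearMap.smul_apply, smul_eq_mul, ee,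
      mul_zero, add_zero]
  have Bvv₁ : B v v₁ = 0 := by
    rw [hv, hv₁]
    simp only [map_add, map_smul, LinearMap.add_apply, LinearMap.smul_apply, smul_eq_mul, ee,
      mul_zero, add_zero]
  have Bv₁v₁ : B v₁ v₁ = 0 := by
    rw [hv₁]
    simp only [map_add, map_smul, LinearMap.add_apply, LinearMap.smul_apply, smul_eq_mul, ee,
      mul_zero, add_zero]
  have Bdd : B d d = 0 := by
    rw [hd]
    simp only [map_sub, map_smul, LinearMap.sub_apply, LinearMap.smul_apply, smul_eq_mul, ff,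
      mul_zero, sub_zero]
  have Bd₁d₁ : B d₁ d₁ = 0 := by
    rw [hd₁]
    simp only [map_sub, map_smul, LinearMap.sub_apply, LinearMap.smul_apply, smul_eq_mul, ff,
      mul_zero, sub_zero]
  have Bvd : B v d = 0 := by
    rw [hv, hd]
    simp only [map_add, map_sub, map_smul, LinearMap.add_apply, LinearMap.smul_apply,
      smul_eq_mul, ef00, ef11, ef01, ef10]
    ring
  have Bv₁d₁ : B v₁ d₁ = 0 := by
    rw [hv₁, hd₁]
    simp only [map_add, map_sub, map_smul, LinearMap.add_apply, LinearMap.smul_apply,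
      smul_eq_mul, ef00, ef11, ef01, ef10]
    ring
  have Bv₁d : B v₁ d = X * (ψ κ - κ) := by
    rw [hv₁, hd]
    simp only [map_add, map_sub, map_smul, LinearMap.add_apply, LinearMap.smul_apply,
      smul_eq_mul, ef00, ef11, ef01, ef10]
    field_simp
    ring
  have hψμ : ψ μ ≠ 0 := (map_ne_zero ψ).2 hμ
  have Bvd₁ : ψ μ * B v d₁ = -(μ * (ψ X * (ψ κ - κ))) := by
    rw [hv, hd₁]
    simp only [map_add, map_sub, map_smul, LinearMap.add_apply, LinearMap.smul_apply,
      smul_eq_mul, ef00, ef11, ef01, ef10]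
    field_simp
    ring
  -- the elements
  have Byv : B (y v) (y v) = 0 := by rw [hy.form, Bvv, map_zero, mul_zero]
  have Byvd : B (y v) (ν⁻¹ • y d) = 0 := by
    rw [map_smul, hy.form, Bvd, map_zero, mul_zero, smul_zero]
  have Bvnd : B v (-d) = 0 := by rw [map_neg, Bvd, neg_zero]
  have hc : y * sg B v d * y⁻¹ * (sg B v d)⁻¹ = sg B (y v) (ν⁻¹ • y d) * sg B v (-d) := by
    rw [sg_conj hB h2 hy Bvv Bvd, sg_inv hB h2 Bvv Bvd]
  refine ⟨sg B v d, sgo B hch hB h3 v d Bvv Bvd, ?_, ?_⟩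
  · rw [hc]
    have a1 : sg B v (-d) v = v := by
      rw [sg_apply hB h2 Bvv Bvnd, Bvv, Bvnd]
      simp
    have a2 : sg B v (-d) v₁ = v₁ + (X * (ψ κ - κ)) • v := by
      rw [sg_apply hB h2 Bvv Bvnd, hB.symm v₁ v, Bvv₁, map_neg, Bv₁d]
      simp
    have a3 : sg B (y v) (ν⁻¹ • y d) v₁ = v₁ := by
      rw [sg_apply hB h2 Byv Byvd, yv, yd]
      simp only [map_smul, LinearMap.smul_apply, smul_eq_mul, Bv₁v₁, Bv₁d₁, mul_zero, zero_smul,
        add_zero, sub_zero]
    have a4 : sg B (y v) (ν⁻¹ • y d) v = v + (ψ X * (ψ κ - κ)) • v₁ := by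
      rw [sg_apply hB h2 Byv Byvd, yv, yd]
      simp only [map_smul, LinearMap.smul_apply, smul_eq_mul, Bvv₁, mul_zero, zero_mul, zero_smul,
        add_zero, sub_zero, smul_smul]
      rw [sub_eq_add_neg, ← neg_smul]
      congr 2
      have h5 : ν * (ψ μ * (-(ν⁻¹ * lam⁻¹ * B v d₁ * lam⁻¹))) =
          ν * (ψ μ * (ψ X * (ψ κ - κ))) := by
        have h6 : ν * (ψ μ * (-(ν⁻¹ * lam⁻¹ * B v d₁ * lam⁻¹))) =
            -(lam⁻¹ * (lam⁻¹ * (ψ μ * B v d₁))) := by
          field_simp
        rw [h6, Bvd₁, ← mul_assoc ν, ← hmu]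
        ring
      exact mul_left_cancel₀ hψμ (mul_left_cancel₀ hν h5)
    have hlin := (sg_mem hB (y v) (ν⁻¹ • y d)).1
    refine ⟨v, v₁, !![1, X * (ψ κ - κ); ψ X * (ψ κ - κ), 1 + X * ψ X * (ψ κ - κ) ^ 2],
      ?_, ?_, ?_, ?_, ?_⟩
    · rw [LinearIndependent.pair_iff]
      intro s t hst
      have g0 : (s + t) * μ = 0 := by
        have := congrArg (fun z => B z (f 0)) hst
        rw [hv, hv₁] at this
        simp only [map_add, map_smul, LinearMap.add_apply, LinearMap.smul_apply, smul_eq_mul,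
          ef00, ef10, mul_zero, add_zero, map_zero, LinearMap.zero_apply] at this
        rw [add_mul]
        exact this
      have g1 : (s * κ + t * ψ κ) * μ = 0 := by
        have := congrArg (fun z => B z (f 1)) hst
        rw [hv, hv₁] at this
        simp only [map_add, map_smul, LinearMap.add_apply, LinearMap.smul_apply, smul_eq_mul,
          ef01, ef11, zero_add, map_zero, LinearMap.zero_apply] at this
        rw [add_mul, mul_assoc, mul_assoc]
        exact this
      have g2 : s + t = 0 := (mul_eq_zero.1 g0).resolve_right hμ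
      have g3 : s * κ + t * ψ κ = 0 := (mul_eq_zero.1 g1).resolve_right hμ
      have g4 : t * (ψ κ - κ) = 0 := by
        have : s = -t := eq_neg_of_add_eq_zero_left g2
        rw [this] at g3
        linear_combination g3
      have ht : t = 0 := (mul_eq_zero.1 g4).resolve_right (sub_ne_zero.2 hκ)
      refine ⟨?_, ht⟩
      rw [ht, add_zero] at g2
      exact g2
    · rw [Matrix.det_fin_two_of]
      ring
    · rw [Matrix.trace_fin_two_of]
      ring
    · rw [Equiv.Perm.mul_apply, a1, a4]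
      simp
    · rw [Equiv.Perm.mul_apply, a2, hlin.1, hlin.2, a3, a4]
      simp only [Matrix.of_apply, Matrix.cons_val', Matrix.cons_val_zero, Matrix.cons_val_one,
        Matrix.cons_val_fin_one]
      rw [smul_add, smul_smul]
      have h7 : (1 + X * ψ X * (ψ κ - κ) ^ 2) • v₁ =
          v₁ + (X * (ψ κ - κ) * (ψ X * (ψ κ - κ))) • v₁ := by
        rw [add_smul, one_smul]
        congr 2
        ring
      rw [h7]
      abel
  · rw [hc]
    let L : V →ₗ[F] (Fin 4 → F) := LinearMap.pi ![B v, B d, B (y v), B (y d)]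
    refine ⟨LinearMap.ker L, ?_, ?_⟩
    · have h1 := LinearMap.finrank_range_add_finrank_ker L
      have h4 : finrank F (LinearMap.range L) ≤ 4 := by
        have := Submodule.finrank_le (LinearMap.range L)
        rwa [Module.finrank_fin_fun] at this
      omega
    · intro u hu
      have hu' : L u = 0 := hu
      have u0 : B u v = 0 := by rw [hB.symm]; exact congrFun hu' 0
      have u1 : B u d = 0 := by rw [hB.symm]; exact congrFun hu' 1
      have u2 : B u (y v) = 0 := by rw [hB.symm]; exact congrFun hu' 2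
      have u3 : B u (y d) = 0 := by rw [hB.symm]; exact congrFun hu' 3
      have b1 : sg B v (-d) u = u := by
        rw [sg_apply hB h2 Bvv Bvnd, map_neg, u0, u1]
        simp
      rw [Equiv.Perm.mul_apply, b1, sg_apply hB h2 Byv Byvd, map_smul, u2, u3]
      simp

end Pool.Agent.ORT
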